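import Pool.Agent.helper20.LB.Defs

set_option autoImplicit false

/-! Module W (words) of the LB project: from the prefix counting function to words. -/

namespace Pool.Agent.helper20.LB

/-- the prefix counting function of a binary word -/
def wf (w : List Bool) (x : ℤ) : ℤ := ((w.take x.toNat).count true : ℤ)

/-- the factor with centre `c` and radius `r` -/
def W_word (w : List Bool) (s : ℤ × ℤ) : List Bool := (w.drop (s.1 - s.2).toNat).take (2 * s.2).toNat

theorem wf_step (w : List Bool) : Step (wf w) := by
  intro x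
  unfold wf
  rcases le_or_gt 0 x with hx | hx
  · have h1 : (x + 1).toNat = x.toNat + 1 := by omega
    rw [h1, List.take_add, List.count_append]
    have h2 : ((w.drop x.toNat).take 1).count true ≤ 1 := by
      refine List.count_le_length.trans ?_
      simp
    push_cast
    constructor
    · omega
    · omega
  · have h1 : (x + 1).toNat = 0 := by omega
    have h2 : x.toNat = 0 := by omega
    rw [h1, h2]
    simp

theorem wf_add (w : List Bool) (i m : ℕ) : wf w (i + m : ℕ) = wf w i + (((w.drop i).take m).count true : ℤ) := by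
  unfold wf
  simp only [Int.toNat_natCast]
  rw [List.take_add, List.count_append]
  push_cast
  rfl

/-- number of `true` in a prefix of the factor -/
theorem W_count (w : List Bool) (i R m : ℕ) (hm : m ≤ R) :
    ((((w.drop i).take R).take m).count true : ℤ) = wf w (i + m : ℕ) - wf w i := by
  rw [wf_add, List.take_take, min_eq_left hm]
  ring

theorem W_length (w : List Bool) (i R : ℕ) (h : i + R ≤ w.length) : ((w.drop i).take R).length = R := by
  rw [List.length_take, List.length_drop]
  omega

theorem W_perm (x y : List Bool) (h1 : x.length = y.length) (h2 : x.count true = y.count true) : x.Perm y := by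
  rw [List.perm_iff_count]
  intro a
  cases a
  · have hx := List.count_true_add_count_false x
    have hy := List.count_true_add_count_false y
    omega
  · exact h2

theorem W_mem (w : List Bool) (s : ℤ × ℤ) (hs : IsSq (wf w) w.length s) :
    List.IsInfix (W_word w s) w ∧ ∃ x y : List Bool, x ≠ [] ∧ List.Perm x y ∧ W_word w s = x ++ y := by
  obtain ⟨c, r⟩ := s
  obtain ⟨h1, h2, h3, h4⟩ := hs
  simp only at h1 h2 h3 h4
  obtain ⟨i, hi⟩ : ∃ i : ℕ, c - r = i := ⟨(c - r).toNat, by omega⟩
  obtain ⟨R, hR⟩ : ∃ R : ℕ, r = R := ⟨r.toNat, by omega⟩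
  subst hR
  have hc : c = ((i + R : ℕ) : ℤ) := by push_cast; omega
  have hc2 : c + R = ((i + R + R : ℕ) : ℤ) := by push_cast; omega
  have hlen : i + R + R ≤ w.length := by zify; push_cast at hc2; omega
  have hw : W_word w (c, (R : ℤ)) = (w.drop i).take (R + R) := by
    unfold W_word
    simp only
    rw [hi]
    congr 1
    omega
  refine ⟨?_, (w.drop i).take R, (w.drop (i + R)).take R, ?_, ?_, ?_⟩
  · rw [hw]
    exact (List.take_prefix _ _).isInfix.trans (List.drop_suffix _ _).isInfix
  · intro h
    have := W_length w i R (by omega)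
    rw [h] at this
    simp at this
    omega
  · apply W_perm
    · rw [W_length w i R (by omega), W_length w (i + R) R (by omega)]
    · have e1 := wf_add w i R
      have e2 := wf_add w (i + R) R
      unfold F at h4
      rw [hi, hc2, hc, e2, e1] at h4
      zify
      linarith
  · rw [hw, List.take_add, List.drop_drop]

theorem W_same (w : List Bool) (s t : ℤ × ℤ) (hs : IsSq (wf w) w.length s) (ht : IsSq (wf w) w.length t)
    (h : W_word w s = W_word w t) : Same (wf w) s t := by
  obtain ⟨c, r⟩ := s
  obtain ⟨c', r'⟩ := t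
  obtain ⟨h1, h2, h3, -⟩ := hs
  obtain ⟨h1', h2', h3', -⟩ := ht
  simp only at h1 h2 h3 h1' h2' h3'
  obtain ⟨i, hi⟩ : ∃ i : ℕ, c - r = i := ⟨(c - r).toNat, by omega⟩
  obtain ⟨R, hR⟩ : ∃ R : ℕ, r = R := ⟨r.toNat, by omega⟩
  obtain ⟨i', hi'⟩ : ∃ i : ℕ, c' - r' = i := ⟨(c' - r').toNat, by omega⟩
  obtain ⟨R', hR'⟩ : ∃ R : ℕ, r' = R := ⟨r'.toNat, by omega⟩
  subst hR hR'
  have hw : W_word w (c, (R : ℤ)) = (w.drop i).take (2 * R) := by
    unfold W_word
    simp only
    rw [hi]
    congr 1
  have hw' : W_word w (c', (R' : ℤ)) = (w.drop i').take (2 * R') := by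
    unfold W_word
    simp only
    rw [hi']
    congr 1
  have hl : i + 2 * R ≤ w.length := by omega
  have hl' : i' + 2 * R' ≤ w.length := by omega
  rw [hw, hw'] at h
  have hRR : R = R' := by
    have := congrArg List.length h
    rw [W_length w i _ hl, W_length w i' _ hl'] at this
    omega
  subst hRR
  refine ⟨rfl, ?_⟩
  simp only
  have key : ∀ m : ℕ, m ≤ 2 * R → wf w (i + m : ℕ) - wf w i = wf w (i' + m : ℕ) - wf w i' := by
    intro m hm
    rw [← W_count w i (2 * R) m hm, ← W_count w i' (2 * R) m hm, h]
  intro j hj1 hj2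
  obtain ⟨m, hm⟩ : ∃ m : ℕ, (R : ℤ) + j = m := ⟨(R + j).toNat, by omega⟩
  have k1 := key m (by omega)
  have k2 := key R (by omega)
  have a1 : c + j = ((i + m : ℕ) : ℤ) := by push_cast; omega
  have a2 : c = ((i + R : ℕ) : ℤ) := by push_cast; omega
  have a3 : c' + j = ((i' + m : ℕ) : ℤ) := by push_cast; omega
  have a4 : c' = ((i' + R : ℕ) : ℤ) := by push_cast; omega
  rw [a1, a3, a2, a4]
  linarith

theorem W_finite (w : List Bool) : {u : List Bool | List.IsInfix u w ∧
    ∃ x y : List Bool, x ≠ [] ∧ List.Perm x y ∧ u = x ++ y}.Finite := by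
  refine Set.Finite.subset (List.finite_toSet w.sublists) ?_
  rintro u ⟨hu, -⟩
  simp only [List.mem_sublists, Set.mem_ofPred_eq]
  exact hu.sublist

theorem W_bd (w : List Bool) : Bd (wf w) w.length (Set.ncard {u : List Bool | List.IsInfix u w ∧
    ∃ x y : List Bool, x ≠ [] ∧ List.Perm x y ∧ u = x ++ y}) := by
  intro A hA hinj
  classical
  have hfin := W_finite w
  rw [Set.ncard_eq_toFinset_card _ hfin]
  refine Finset.card_le_card_of_injOn (W_word w) ?_ ?_
  · intro s hs
    rw [Finset.mem_coe, Set.Finite.mem_toFinset]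
    exact W_mem w s (hA s hs)
  · intro s hs t ht h
    exact hinj s hs t ht (W_same w s t (hA s hs) (hA t ht) h)

/-- the final statement on words, from `main_abs` -/
theorem word_bound_of
    (hmain : ∀ (f : ℤ → ℤ), Step f → ∀ (n : ℤ) (E : ℕ), Bd f n E → n ≤ 100000 * (E + 1))
    (w : List Bool) :
    w.length ≤ 100000 * (Set.ncard {u : List Bool | List.IsInfix u w ∧
          ∃ x y : List Bool, x ≠ [] ∧ List.Perm x y ∧ u = x ++ y} + 1) := by
  have := hmain (wf w) (wf_step w) w.length _ (W_bd w)
  exact_mod_cast this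

end Pool.Agent.helper20.LB
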